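import Pool.Agent.Helper56.RB.Final2

/-!
# MP_9610a0_an : rigorous bounds for the bifurcation radius of the parameter -1
-/

set_option autoImplicit false

open Pool.Agent.Helper56.RB

namespace Pool.Agent.Results.MP_9610a0_an.MinusOneBounds

/-- `0.039886 ≤ r_bif(-1) < 0.039887`. -/
theorem result : 39886 / 1000000 ≤ rbif (-1) ∧ rbif (-1) < 39887 / 1000000 := rbif_neg_one

end Pool.Agent.Results.MP_9610a0_an.MinusOneBounds
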