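import Pool.Agent.Helper56.RB.Final2

/-!
# MP_9610a0_an : algebraicity of the bifurcation radius at superattracting parameters
-/

set_option autoImplicit false

open Pool.Agent.Helper56.RB

namespace Pool.Agent.Results.MP_9610a0_an.TipParameters

/-- For every `n ≥ 2` let `c n` be the smallest real parameter with `f^n(0) = 0` (so `c 2 = -1`,
`c 3 = -1.7548…`, and `c` is strictly decreasing). The bifurcation radius of `c n` is an algebraic
number; it is positive, `P(c n, r)` is bounded exactly for `r ≤ r_bif`, and at `r = r_bif` there are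
`2 n` parameters on the circle of radius `r_bif` around `c n` whose composition has a fixed point
of multiplier `1`. In particular `r_bif(-1)` is algebraic. -/
theorem result :
    ∃ c : ℕ → ℝ, StrictAntiOn c (Set.Ici 2) ∧ c 2 = -1 ∧ ∀ n : ℕ, 2 ≤ n →
      IsLeast {x : ℝ | (fun z : ℂ => z ^ 2 + (x : ℂ))^[n] 0 = 0} (c n) ∧
      IsAlgebraic ℚ (rbif (c n)) ∧ 0 < rbif (c n) ∧
      (∀ r : ℝ, 0 ≤ r → (Bornology.IsBounded (reach (c n) r) ↔ r ≤ rbif (c n))) ∧
      ∃ l : List ℂ, l.length = 2 * n ∧ (∀ a ∈ l, ‖a - c n‖ = rbif (c n)) ∧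
        ∃ w : ℂ, l.foldl (fun z a => z ^ 2 + a) w = w ∧
          HasDerivAt (fun z => l.foldl (fun z a => z ^ 2 + a) z) 1 w := by
  obtain ⟨c, h1, h2, h3⟩ := tip_family
  refine ⟨c, h1, h2, ?_⟩
  intro n hn
  obtain ⟨hT, halg, hl⟩ := h3 n hn
  exact ⟨hl, tip_full hT halg⟩

end Pool.Agent.Results.MP_9610a0_an.TipParameters
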